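import Pool.Agent.V11329.Penney.Fin

/-! Conway's formula for Penney's game. -/

set_option autoImplicit false

namespace Pool.Agent.V11329.Penney

open MeasureTheory Filter Topology Pool.Agent.V11329.Avg Pool.Agent.V11329.Haar

variable {n : ℕ}

/-- an occurrence of `X` is completed after exactly `j` tosses -/
def occ (X : Fin n → Bool) (j : ℕ) (ω : ℕ → Bool) : Prop := n ≤ j ∧ ∀ i : Fin n, ω (j - n + i) = X i

/-- no occurrence of `A` or `B` within the first `m` tosses -/
def noocc (A B : Fin n → Bool) (m : ℕ) (ω : ℕ → Bool) : Prop := ∀ j ≤ m, ¬ occ A j ω ∧ ¬ occ B j ω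

/-- the first occurrence of `A` or `B` is completed after `j` tosses and it is an occurrence
of `X` -/
def fst (A B X : Fin n → Bool) (j : ℕ) (ω : ℕ → Bool) : Prop :=
  occ X j ω ∧ ∀ j' < j, ¬ occ A j' ω ∧ ¬ occ B j' ω

lemma occ_dep (X : Fin n → Bool) (j : ℕ) : Dep j (occ X j) := by
  intro ω ω' h hX
  refine ⟨hX.1, fun i => ?_⟩
  rw [← h _ (by have := i.2; have := hX.1; omega)]
  exact hX.2 i

lemma noocc_dep (A B : Fin n → Bool) (m : ℕ) : Dep m (noocc A B m) := by
  intro ω ω' h hX j hj
  rw [← ((occ_dep A j).mono hj).iff h, ← ((occ_dep B j).mono hj).iff h]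
  exact hX j hj

lemma fst_dep (A B X : Fin n → Bool) (m : ℕ) : Dep m (fst A B X m) := by
  intro ω ω' h hX
  refine ⟨occ_dep X m ω ω' h hX.1, fun j hj => ?_⟩
  rw [← ((occ_dep A j).mono hj.le).iff h, ← ((occ_dep B j).mono hj.le).iff h]
  exact hX.2 j hj

/-- the block of length `n` after the first `m` tosses is `Y` -/
def blk (Y : Fin n → Bool) (m : ℕ) (ω : ℕ → Bool) : Prop := ∀ i : Fin n, ω (m + i) = Y i

lemma blk_dep (Y : Fin n → Bool) (m : ℕ) : Dep (m + n) (blk Y m) := by
  intro ω ω' h hX i
  rw [← h _ (by have := i.2; omega)]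
  exact hX i

lemma blk_occ {Y : Fin n → Bool} {m : ℕ} {ω : ℕ → Bool} (h : blk Y m ω) : occ Y (m + n) ω := by
  refine ⟨by omega, fun i => ?_⟩
  rw [Nat.add_sub_cancel]
  exact h i

lemma occ_unique {A B : Fin n → Bool} {j : ℕ} {ω : ℕ → Bool} (hA : occ A j ω) (hB : occ B j ω) :
    A = B := by
  funext i
  rw [← hA.2 i, ← hB.2 i]

/-- the suffix of `X` of length `k` equals the prefix of `Y` of length `k` -/
def ov (X Y : Fin n → Bool) (k : ℕ) : Prop := ∀ i j : Fin n, (i : ℕ) + (n - k) = j → X j = Y i

open Classical in
/-- the pointwise decomposition -/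
lemma pointwise {A B : Fin n → Bool} (hAB : A ≠ B) {Y : Fin n → Bool} (hY : Y = A ∨ Y = B)
    (m : ℕ) (ω : ℕ → Bool) :
    I (noocc A B m ω ∧ blk Y m ω) = ∑ q ∈ (Finset.Icc 1 n) ×ˢ (Finset.univ : Finset Bool),
      I (fst A B (if q.2 then A else B) (m + q.1) ω ∧ blk Y m ω) := by
  by_cases hb : blk Y m ω
  · by_cases hn : noocc A B m ω
    · rw [I_true ⟨hn, hb⟩]
      have hex : ∃ j, occ A j ω ∨ occ B j ω := by
        rcases hY with rfl | rfl
        · exact ⟨m + n, Or.inl (blk_occ hb)⟩
        · exact ⟨m + n, Or.inr (blk_occ hb)⟩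
      set j0 := Nat.find hex with hj0
      have hspec := Nat.find_spec hex
      have hmin : ∀ j < j0, ¬ occ A j ω ∧ ¬ occ B j ω := fun j hj => by
        have := Nat.find_min hex hj
        exact not_or.1 this
      have hm : m < j0 := by
        by_contra hcon
        have h1 := hn j0 (by omega)
        rcases hspec with h2 | h2
        · exact h1.1 h2
        · exact h1.2 h2
      have hle : j0 ≤ m + n := by
        apply Nat.find_min' hex
        rcases hY with rfl | rfl
        · exact Or.inl (blk_occ hb)
        · exact Or.inr (blk_occ hb)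
      have hfst : ∀ (X : Fin n → Bool), (X = A ∨ X = B) → ∀ j, fst A B X j ω → j = j0 := by
        intro X hX j hj
        apply le_antisymm
        · by_contra hcon
          push Not at hcon
          have h1 := hj.2 j0 hcon
          rcases hspec with h2 | h2
          · exact h1.1 h2
          · exact h1.2 h2
        · by_contra hcon
          push Not at hcon
          have h1 := hmin j hcon
          rcases hX with rfl | rfl
          · exact h1.1 hj.1
          · exact h1.2 hj.1
      -- the unique index
      have huniq : ∃ c : Bool, occ (if c then A else B) j0 ω := by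
        rcases hspec with h2 | h2
        · exact ⟨true, by simpa using h2⟩
        · exact ⟨false, by simpa using h2⟩
      obtain ⟨c, hc⟩ := huniq
      rw [Finset.sum_eq_single (j0 - m, c)]
      · rw [I_true]
        refine ⟨⟨?_, ?_⟩, hb⟩
        · have : m + (j0 - m) = j0 := by omega
          simp only
          rw [this]; exact hc
        · intro j hj
          have : m + (j0 - m) = j0 := by omega
          simp only at hj
          rw [this] at hj
          exact hmin j hj
      · rintro ⟨q, c'⟩ hq hne
        apply I_false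
        rintro ⟨h1, -⟩
        simp only at h1
        have hX : (if c' = true then A else B) = A ∨ (if c' = true then A else B) = B := by
          cases c'
          · right; simp
          · left; simp
        have h2 := hfst _ hX _ h1
        apply hne
        have h3 : occ (if c' = true then A else B) j0 ω := h2 ▸ h1.1
        have h4 := occ_unique hc h3
        have h5 : c = c' := by
          cases c <;> cases c'
          · rfl
          · simp at h4; exact absurd h4.symm hAB
          · simp at h4; exact absurd h4 hAB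
          · rfl
        rw [Prod.mk.injEq]
        exact ⟨by omega, h5.symm⟩
      · intro h
        exfalso
        apply h
        rw [Finset.mem_product, Finset.mem_Icc]
        exact ⟨⟨by simp only; omega, by simp only; omega⟩, Finset.mem_univ _⟩
    · rw [I_false (fun h => hn h.1), Finset.sum_eq_zero]
      rintro ⟨q, c⟩ hq
      apply I_false
      rintro ⟨h1, -⟩
      apply hn
      intro j hj
      apply h1.2
      rw [Finset.mem_product, Finset.mem_Icc] at hq
      have := hq.1.1
      simp only at this ⊢
      omega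
  · rw [I_false (fun h => hb h.2), Finset.sum_eq_zero]
    intro q _
    exact I_false fun h => hb h.2

lemma fst_blk {A B X Y : Fin n → Bool} {m k : ℕ} (hk : k ≤ n) :
    pr (fun ω => fst A B X (m + k) ω ∧ blk Y m ω)
      = I (ov X Y k) * (pr (fst A B X (m + k)) * (1 / 2) ^ (n - k)) := by
  by_cases h : ov X Y k
  · rw [I_true h, one_mul, ← pr_ext (fst_dep A B X (m + k))
      (fun i : Fin (n - k) => Y ⟨k + i, by have := i.2; omega⟩)]
    apply pr_congr
    intro ω
    constructor
    · rintro ⟨h1, h2⟩
      refine ⟨h1, fun i => ?_⟩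
      have := h2 ⟨k + i, by have := i.2; omega⟩
      rw [← this]
      congr 1
      simp only
      omega
    · rintro ⟨h1, h2⟩
      refine ⟨h1, fun i => ?_⟩
      by_cases hi : (i : ℕ) < k
      · have h3 := h i ⟨(i : ℕ) + (n - k), by omega⟩ rfl
        have h4 := h1.1.2 ⟨(i : ℕ) + (n - k), by omega⟩
        rw [← h3, ← h4]
        congr 1
        have := h1.1.1
        simp only
        omega
      · have h3 := h2 ⟨(i : ℕ) - k, by have := i.2; omega⟩
        have h4 : (⟨k + ((i : ℕ) - k), by have := i.2; omega⟩ : Fin n) = i := by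
          apply Fin.ext
          simp only
          omega
        simp only at h3
        rw [h4] at h3
        rw [← h3]
        congr 1
        omega
  · rw [I_false h, zero_mul]
    unfold pr
    have : {ω | fst A B X (m + k) ω ∧ blk Y m ω} = ∅ := by
      ext ω
      constructor
      · rintro ⟨h1, h2⟩
        apply h
        intro i j hij
        have h4 := h1.1.2 j
        rw [← h4, ← h2 i]
        congr 1
        have := h1.1.1
        omega
      · intro h; exact absurd h (Set.notMem_empty _)
    rw [this, measureReal_empty]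

/-- the identity for each `m` -/
lemma identity {A B : Fin n → Bool} (hAB : A ≠ B) {Y : Fin n → Bool} (hY : Y = A ∨ Y = B)
    (m : ℕ) : pr (noocc A B m) = ∑ k ∈ Finset.Icc 1 n,
      (I (ov A Y k) * 2 ^ k * pr (fst A B A (m + k)) + I (ov B Y k) * 2 ^ k * pr (fst A B B (m + k))) := by
  classical
  have h1 : pr (fun ω => noocc A B m ω ∧ blk Y m ω) = pr (noocc A B m) * (1 / 2) ^ n :=
    pr_ext (noocc_dep A B m) Y
  have h2 := pr_sum ((Finset.Icc 1 n) ×ˢ (Finset.univ : Finset Bool)) (m := m + n)
    (P := fun ω => noocc A B m ω ∧ blk Y m ω)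
    (Q := fun q ω => fst A B (if q.2 then A else B) (m + min q.1 n) ω ∧ blk Y m ω)
    (((noocc_dep A B m).mono (by omega)).and (blk_dep Y m))
    (fun q => ((fst_dep A B _ _).mono (by omega)).and (blk_dep Y m))
    (fun ω => by
      rw [pointwise hAB hY m ω]
      refine Finset.sum_congr rfl fun q hq => ?_
      rw [Finset.mem_product, Finset.mem_Icc] at hq
      rw [min_eq_left hq.1.2])
  rw [h1, Finset.sum_product] at h2
  have h3 : ∀ k ∈ Finset.Icc 1 n, ∑ c : Bool,
      pr (fun ω => fst A B (if c = true then A else B) (m + min k n) ω ∧ blk Y m ω)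
      = (I (ov A Y k) * 2 ^ k * pr (fst A B A (m + k)) +
        I (ov B Y k) * 2 ^ k * pr (fst A B B (m + k))) * (1 / 2) ^ n := by
    intro k hk
    rw [Finset.mem_Icc] at hk
    rw [min_eq_left hk.2, Fintype.sum_bool]
    simp only [if_true]
    rw [if_neg (by simp), fst_blk hk.2, fst_blk hk.2]
    have h4 : (1 / 2 : ℝ) ^ n * 2 ^ k = (1 / 2) ^ (n - k) := by
      have : (1 / 2 : ℝ) ^ n = (1 / 2) ^ (n - k) * (1 / 2) ^ k := by
        rw [← pow_add]; congr 1; omega
      rw [this, mul_assoc, ← mul_pow]
      norm_num
    rw [← h4]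
    ring
  rw [Finset.sum_congr rfl h3, ← Finset.sum_mul] at h2
  exact mul_right_cancel₀ (by positivity) h2

end Pool.Agent.V11329.Penney
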