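import Pool.Agent.V11329.Penney.Formula

/-! Averages of overlaps and the final bounds for Penney's game. -/

set_option autoImplicit false

namespace Pool.Agent.V11329.Penney

open Pool.Agent.V11329.Avg

/-- strings whose letters at positions `s, ..., s + k - 1` are determined by the earlier ones -/
lemma count {n k s : ℕ} (hs : s + k ≤ n) (P : (Fin n → Bool) → Prop)
    (h : ∀ A A', P A → P A' → ∀ j : Fin n, s ≤ (j : ℕ) → (j : ℕ) < s + k →
      (∀ i < j, A i = A' i) → A j = A' j) :
    ∑ A : Fin n → Bool, I (P A) * 2 ^ k ≤ 2 ^ n := by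
  classical
  have h1 : (Finset.univ.filter (fun A : Fin n → Bool => P A)).card ≤ 2 ^ (n - k) := by
    have hcard : (Finset.univ : Finset (Fin (n - k) → Bool)).card = 2 ^ (n - k) := by
      rw [Finset.card_univ, Fintype.card_fun, Fintype.card_bool, Fintype.card_fin]
    rw [← hcard]
    apply Finset.card_le_card_of_injOn
      (fun A : Fin n → Bool => fun i : Fin (n - k) =>
        A ⟨if (i : ℕ) < s then (i : ℕ) else (i : ℕ) + k, by
          have := i.2; split_ifs <;> omega⟩)
    · intro A _; exact Finset.mem_coe.2 (Finset.mem_univ _)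
    · intro A hA A' hA' heq
      rw [Finset.coe_filter, Set.mem_ofPred_eq] at hA hA'
      have key : ∀ m : ℕ, ∀ hm : m < n, A ⟨m, hm⟩ = A' ⟨m, hm⟩ := by
        intro m
        induction m using Nat.strong_induction_on with
        | _ m ih =>
          intro hm
          by_cases h1 : m < s
          · have := congrFun heq ⟨m, by omega⟩
            simpa [h1] using this
          · by_cases h2 : m < s + k
            · exact h A A' hA.2 hA'.2 ⟨m, hm⟩ (by simp only; omega) h2
                (fun i hi => ih i hi i.2)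
            · have := congrFun heq ⟨m - k, by omega⟩
              have h3 : ¬ (m - k < s) := by omega
              have h4 : m - k + k = m := by omega
              simpa [h3, h4] using this
      funext i
      exact key i i.2
  have h2 : ∑ A : Fin n → Bool, I (P A) = ((Finset.univ.filter (fun A : Fin n → Bool => P A)).card : ℝ) := by
    unfold I
    rw [Finset.sum_boole]
  rw [← Finset.sum_mul, h2]
  have h3 : ((Finset.univ.filter (fun A : Fin n → Bool => P A)).card : ℝ) ≤ 2 ^ (n - k) := by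
    exact_mod_cast h1
  calc ((Finset.univ.filter (fun A : Fin n → Bool => P A)).card : ℝ) * 2 ^ k
      ≤ 2 ^ (n - k) * 2 ^ k := by gcongr
    _ = 2 ^ n := by rw [← pow_add]; congr 1; omega

section
variable {N : ℕ}

/-- the part of the correlation without the full length -/
noncomputable def S (X Y : Fin (N + 1) → Bool) : ℝ := ∑ k ∈ Finset.Icc 1 N, I (ov X Y k) * 2 ^ k

lemma ov_top {X Y : Fin (N + 1) → Bool} : ov X Y (N + 1) ↔ X = Y := by
  constructor
  · intro h
    funext i
    exact h i i (by omega)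
  · rintro rfl i j hij
    have : i = j := Fin.ext (by omega)
    rw [this]

lemma K_eq (X Y : Fin (N + 1) → Bool) : K X Y = S X Y + I (X = Y) * 2 ^ (N + 1) := by
  unfold K S
  rw [Finset.sum_Icc_succ_top (by omega), I_congr ov_top]

lemma S_nonneg (X Y : Fin (N + 1) → Bool) : 0 ≤ S X Y :=
  Finset.sum_nonneg fun k _ => mul_nonneg (I_nonneg _) (by positivity)

lemma sum_pow (M : ℕ) : ∑ k ∈ Finset.Icc 1 M, (2 : ℝ) ^ k = 2 ^ (M + 1) - 2 := by
  induction M with
  | zero => simp
  | succ M ih => rw [Finset.sum_Icc_succ_top (by omega), ih, pow_succ (2 : ℝ) (M + 1)]; ring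

lemma S_le (X Y : Fin (N + 1) → Bool) : S X Y ≤ 2 ^ (N + 1) - 2 := by
  rw [← sum_pow]
  exact Finset.sum_le_sum fun k _ => mul_le_of_le_one_left (by positivity) (I_le_one _)

/-- border of length `k` of the string without its last letter -/
def ov' (A : Fin (N + 1) → Bool) (k : ℕ) : Prop :=
  ∀ i j : Fin (N + 1), (i : ℕ) + (N - k) = j → (j : ℕ) < N → A j = A i

/-- the correlation of the string without its last letter -/
noncomputable def T (A : Fin (N + 1) → Bool) : ℝ := ∑ k ∈ Finset.Icc 1 (N - 1), I (ov' A k) * 2 ^ k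

lemma T_nonneg (A : Fin (N + 1) → Bool) : 0 ≤ T A :=
  Finset.sum_nonneg fun k _ => mul_nonneg (I_nonneg _) (by positivity)

lemma T_le (A : Fin (N + 1) → Bool) : T A ≤ 2 ^ N := by
  have h1 : T A ≤ ∑ k ∈ Finset.Icc 1 (N - 1), (2 : ℝ) ^ k :=
    Finset.sum_le_sum fun k _ => mul_le_of_le_one_left (by positivity) (I_le_one _)
  rw [sum_pow] at h1
  rcases Nat.eq_zero_or_pos N with h | h
  · subst h
    norm_num at h1 ⊢
    linarith
  · rw [Nat.sub_add_cancel h] at h1
    linarith

lemma S_le_T (B A : Fin (N + 1) → Bool) : S B A ≤ 2 ^ N + T A := by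
  rcases Nat.eq_zero_or_pos N with h | h
  · subst h
    have := T_nonneg A
    unfold S
    simp
    linarith
  · obtain ⟨M, rfl⟩ : ∃ M, N = M + 1 := ⟨N - 1, by omega⟩
    unfold S T
    rw [Finset.sum_Icc_succ_top (by omega), Nat.add_sub_cancel]
    by_cases hov : ov B A (M + 1)
    · rw [I_true hov, one_mul, add_comm]
      gcongr with k hk
      apply I_mono
      intro h1 i j hij hj
      rw [Finset.mem_Icc] at hk
      have h2 := hov j ⟨(j : ℕ) + 1, by omega⟩ (by simp only; omega)
      have h3 := h1 i ⟨(j : ℕ) + 1, by omega⟩ (by simp only; omega)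
      rw [← h2, h3]
    · rw [I_false hov, zero_mul, add_zero]
      have h1 : ∑ k ∈ Finset.Icc 1 M, I (ov B A k) * (2 : ℝ) ^ k ≤ ∑ k ∈ Finset.Icc 1 M, (2 : ℝ) ^ k :=
        Finset.sum_le_sum fun k _ => mul_le_of_le_one_left (by positivity) (I_le_one _)
      rw [sum_pow] at h1
      have h2 := T_nonneg A
      unfold T at h2
      rw [Nat.add_sub_cancel] at h2
      linarith

lemma winP_nonneg {n : ℕ} (B A : Fin n → Bool) : 0 ≤ winP B A := MeasureTheory.measureReal_nonneg

lemma winP_le_one {n : ℕ} (B A : Fin n → Bool) : winP B A ≤ 1 := MeasureTheory.measureReal_le_one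

/-- the upper bound for a single response -/
lemma upper {A B : Fin (N + 1) → Bool} (hAB : A ≠ B) :
    winP B A ≤ 2 / 3 + (S A A + 2 * T A) / (3 * 2 ^ (N + 1)) := by
  have h1 := winP_formula hAB
  rw [K_eq, K_eq, K_eq, K_eq, I_true rfl, I_true rfl, I_false hAB, I_false hAB.symm] at h1
  have hw0 := winP_nonneg B A
  have hw1 := winP_le_one B A
  set w := winP B A with hw
  have h2 := S_nonneg A B
  have h3 := S_nonneg B B
  have h4 := S_le_T B A
  have h5 := T_le A
  have h6 := S_nonneg A A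
  have h7 := T_nonneg A
  have hL : (2 : ℝ) ^ (N + 1) = 2 * 2 ^ N := by rw [pow_succ]; ring
  have hpos : (0 : ℝ) < 2 ^ N := by positivity
  rw [hL] at h1 ⊢
  set L := (2 : ℝ) ^ N with hLdef
  set a := S A A with ha
  set b := T A with hb
  -- `X = 2 L + a`, `Y = L - b`
  have h8 : (2 * L + a) * (1 - w) ≥ (L - b) * w := by
    have h9 : (a + 1 * (2 * L) - (S A B + 0 * (2 * L))) * (1 - w) ≤ (2 * L + a) * (1 - w) := by
      apply mul_le_mul_of_nonneg_right _ (by linarith)
      linarith
    have h10 : (L - b) * w ≤ (S B B + 1 * (2 * L) - (S B A + 0 * (2 * L))) * w := by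
      apply mul_le_mul_of_nonneg_right _ hw0
      linarith
    linarith
  have h11 : w * (3 * L + a - b) ≤ 2 * L + a := by nlinarith
  have h12 : 2 * L ≤ 3 * L + a - b := by linarith
  have h13 : 2 * L + a ≤ (2 / 3 + (a + 2 * b) / (3 * (2 * L))) * (3 * L + a - b) := by
    have h14 : (a + 2 * b) / 3 ≤ (a + 2 * b) / (3 * (2 * L)) * (3 * L + a - b) := by
      rw [div_mul_eq_mul_div, le_div_iff₀ (by positivity)]
      have : (a + 2 * b) * (2 * L) ≤ (a + 2 * b) * (3 * L + a - b) :=
        mul_le_mul_of_nonneg_left h12 (by positivity)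
      nlinarith
    nlinarith
  have h15 : w * (3 * L + a - b) ≤ (2 / 3 + (a + 2 * b) / (3 * (2 * L))) * (3 * L + a - b) :=
    h11.trans h13
  exact le_of_mul_le_mul_right h15 (by linarith)

/-- the response obtained by putting a letter in front and deleting the last letter -/
def resp (b : Bool) (A : Fin (N + 1) → Bool) : Fin (N + 1) → Bool :=
  Fin.cons b (fun i : Fin N => A i.castSucc)

lemma resp_zero (b : Bool) (A : Fin (N + 1) → Bool) : resp b A 0 = b := rfl

lemma resp_succ (b : Bool) (A : Fin (N + 1) → Bool) (i j : Fin (N + 1)) (h : (i : ℕ) + 1 = j) :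
    resp b A j = A i := by
  have hj : j = Fin.succ ⟨(i : ℕ), by omega⟩ := Fin.ext (by simp [h])
  rw [hj]
  rfl

/-- the lower bound for the two special responses -/
lemma lower (hN : 1 ≤ N) {A : Fin (N + 1) → Bool} {b : Bool} (hAB : A ≠ resp b A) :
    2 / 3 - 2 / 3 * (S A (resp b A) + 2 * S (resp b A) (resp b A)) / 2 ^ (N + 1)
      ≤ winP (resp b A) A := by
  have h1 := winP_formula hAB
  rw [K_eq, K_eq, K_eq, K_eq, I_true rfl, I_true rfl, I_false hAB, I_false hAB.symm] at h1
  have hw0 := winP_nonneg (resp b A) A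
  have hw1 := winP_le_one (resp b A) A
  set w := winP (resp b A) A with hw
  have h2 := S_nonneg A (resp b A)
  have h3 := S_nonneg (resp b A) (resp b A)
  have h6 := S_nonneg A A
  have hov : ov (resp b A) A N := by
    intro i j hij
    exact resp_succ b A i j (by omega)
  have h4 : (2 : ℝ) ^ N ≤ S (resp b A) A := by
    unfold S
    have : (2 : ℝ) ^ N = I (ov (resp b A) A N) * 2 ^ N := by rw [I_true hov, one_mul]
    rw [this]
    exact Finset.single_le_sum (f := fun k => I (ov (resp b A) A k) * (2 : ℝ) ^ k)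
      (fun k _ => mul_nonneg (I_nonneg _) (by positivity)) (Finset.mem_Icc.2 ⟨hN, le_refl N⟩)
  have h5 := S_le A (resp b A)
  have hL : (2 : ℝ) ^ (N + 1) = 2 * 2 ^ N := by rw [pow_succ]; ring
  have hpos : (0 : ℝ) < 2 ^ N := by positivity
  rw [hL] at h1 h5 ⊢
  set L := (2 : ℝ) ^ N with hLdef
  set c := S (resp b A) (resp b A) with hc
  set d := S A (resp b A) with hd
  have h8 : (2 * L - d) * (1 - w) ≤ (L + c) * w := by
    have h9 : (2 * L - d) * (1 - w) ≤ (S A A + 1 * (2 * L) - (d + 0 * (2 * L))) * (1 - w) := by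
      apply mul_le_mul_of_nonneg_right _ (by linarith)
      linarith
    have h10 : (c + 1 * (2 * L) - (S (resp b A) A + 0 * (2 * L))) * w ≤ (L + c) * w := by
      apply mul_le_mul_of_nonneg_right _ hw0
      linarith
    linarith
  have h11 : 2 * L - d ≤ w * (3 * L - d + c) := by nlinarith
  have h12 : L ≤ 3 * L - d + c := by linarith
  have h13 : (2 / 3 - 2 / 3 * (d + 2 * c) / (2 * L)) * (3 * L - d + c) ≤ 2 * L - d := by
    have h14 : (d + 2 * c) / 3 ≤ 2 / 3 * (d + 2 * c) / (2 * L) * (3 * L - d + c) := by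
      rw [div_mul_eq_mul_div, le_div_iff₀ (by positivity)]
      have : (d + 2 * c) * L ≤ (d + 2 * c) * (3 * L - d + c) :=
        mul_le_mul_of_nonneg_left h12 (by positivity)
      nlinarith
    nlinarith
  exact le_of_mul_le_mul_right (h13.trans h11) (by linarith)

lemma sum_S_self : ∑ A : Fin (N + 1) → Bool, S A A ≤ N * 2 ^ (N + 1) := by
  unfold S
  rw [Finset.sum_comm]
  have h1 : ∀ k ∈ Finset.Icc 1 N, ∑ A : Fin (N + 1) → Bool, I (ov A A k) * (2 : ℝ) ^ k ≤ 2 ^ (N + 1) := by
    intro k hk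
    rw [Finset.mem_Icc] at hk
    apply count (s := N + 1 - k) (by omega)
    intro A A' hA hA' j hj _ hlt
    rw [hA ⟨(j : ℕ) - (N + 1 - k), by omega⟩ j (by simp only; omega),
      hA' ⟨(j : ℕ) - (N + 1 - k), by omega⟩ j (by simp only; omega)]
    apply hlt
    rw [Fin.lt_def]
    simp only
    omega
  refine (Finset.sum_le_sum h1).trans ?_
  rw [Finset.sum_const, Nat.card_Icc, Nat.add_sub_cancel, nsmul_eq_mul]

lemma sum_T : ∑ A : Fin (N + 1) → Bool, T A ≤ N * 2 ^ (N + 1) := by
  unfold T
  rw [Finset.sum_comm]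
  have h1 : ∀ k ∈ Finset.Icc 1 (N - 1), ∑ A : Fin (N + 1) → Bool, I (ov' A k) * (2 : ℝ) ^ k
      ≤ 2 ^ (N + 1) := by
    intro k hk
    rw [Finset.mem_Icc] at hk
    apply count (s := N - k) (by omega)
    intro A A' hA hA' j hj hj2 hlt
    rw [hA ⟨(j : ℕ) - (N - k), by omega⟩ j (by simp only; omega) (by omega),
      hA' ⟨(j : ℕ) - (N - k), by omega⟩ j (by simp only; omega) (by omega)]
    apply hlt
    rw [Fin.lt_def]
    simp only
    omega
  refine (Finset.sum_le_sum h1).trans ?_
  rw [Finset.sum_const, Nat.card_Icc, nsmul_eq_mul]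
  gcongr
  omega

lemma resp_congr {b : Bool} {A A' : Fin (N + 1) → Bool} (i j : Fin (N + 1)) (hij : i ≤ j)
    (h : ∀ l < j, A l = A' l) : resp b A i = resp b A' i := by
  rcases Fin.eq_zero_or_eq_succ i with rfl | ⟨l, rfl⟩
  · rfl
  · show A l.castSucc = A' l.castSucc
    apply h
    rw [Fin.lt_def]
    rw [Fin.le_def] at hij
    simp at hij ⊢
    omega

lemma sum_S_resp (b : Bool) : ∑ A : Fin (N + 1) → Bool, S A (resp b A) ≤ N * 2 ^ (N + 1) := by
  unfold S
  rw [Finset.sum_comm]
  have h1 : ∀ k ∈ Finset.Icc 1 N, ∑ A : Fin (N + 1) → Bool, I (ov A (resp b A) k) * (2 : ℝ) ^ k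
      ≤ 2 ^ (N + 1) := by
    intro k hk
    rw [Finset.mem_Icc] at hk
    apply count (s := N + 1 - k) (by omega)
    intro A A' hA hA' j hj _ hlt
    rw [hA ⟨(j : ℕ) - (N + 1 - k), by omega⟩ j (by simp only; omega),
      hA' ⟨(j : ℕ) - (N + 1 - k), by omega⟩ j (by simp only; omega)]
    apply resp_congr _ j _ hlt
    rw [Fin.le_def]
    simp only
    omega
  refine (Finset.sum_le_sum h1).trans ?_
  rw [Finset.sum_const, Nat.card_Icc, Nat.add_sub_cancel, nsmul_eq_mul]

lemma sum_S_resp_resp (b : Bool) :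
    ∑ A : Fin (N + 1) → Bool, S (resp b A) (resp b A) ≤ N * 2 ^ (N + 1) := by
  unfold S
  rw [Finset.sum_comm]
  have h1 : ∀ k ∈ Finset.Icc 1 N,
      ∑ A : Fin (N + 1) → Bool, I (ov (resp b A) (resp b A) k) * (2 : ℝ) ^ k ≤ 2 ^ (N + 1) := by
    intro k hk
    rw [Finset.mem_Icc] at hk
    apply count (s := N - k) (by omega)
    intro A A' hA hA' j hj hj2 hlt
    have e1 : ∀ A : Fin (N + 1) → Bool, A j = resp b A ⟨(j : ℕ) + 1, by omega⟩ := fun A =>
      (resp_succ b A j _ rfl).symm
    rw [e1 A, e1 A', hA ⟨(j : ℕ) + 1 - (N + 1 - k), by omega⟩ _ (by simp only; omega),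
      hA' ⟨(j : ℕ) + 1 - (N + 1 - k), by omega⟩ _ (by simp only; omega)]
    apply resp_congr _ j _ hlt
    rw [Fin.le_def]
    simp only
    omega
  refine (Finset.sum_le_sum h1).trans ?_
  rw [Finset.sum_const, Nat.card_Icc, Nat.add_sub_cancel, nsmul_eq_mul]

end

end Pool.Agent.V11329.Penney
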