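import Mathlib

/-! Penney's game: definitions. -/

set_option autoImplicit false

namespace Pool.Agent.V11329.Penney

open MeasureTheory

/-- the law of a fair coin toss -/
noncomputable def coin : Measure Bool := (PMF.uniformOfFintype Bool).toMeasure

instance : IsProbabilityMeasure coin := by unfold coin; infer_instance

/-- the law of an infinite sequence of independent fair coin tosses -/
noncomputable def tosses : Measure (ℕ → Bool) := Measure.infinitePi fun _ => coin

instance : IsProbabilityMeasure tosses := by unfold tosses; infer_instance

/-- the event that `B` appears as a block of consecutive outcomes before `A` does: `B` appears at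
some position `t`, and `A` appears at no position `s ≤ t` -/
def before {n : ℕ} (B A : Fin n → Bool) : Set (ℕ → Bool) :=
  {ω | ∃ t, (∀ i : Fin n, ω (t + i) = B i) ∧ ∀ s ≤ t, ¬ ∀ i : Fin n, ω (s + i) = A i}

/-- the probability that `B` appears before `A` -/
noncomputable def winP {n : ℕ} (B A : Fin n → Bool) : ℝ := tosses.real (before B A)

/-- the winning probability of Player II against a uniformly random string `A`, answering with a
best response `B ≠ A` -/
noncomputable def pRandOpt (n : ℕ) : ℝ :=
  (∑ A : Fin n → Bool, ⨆ B : {B : Fin n → Bool // B ≠ A}, winP B.1 A) / 2 ^ n

end Pool.Agent.V11329.Penney
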