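import Pool.Agent.V11329.Haar
import Pool.Agent.V11329.Penney.Defs

/-! Events determined by finitely many coin tosses. -/

set_option autoImplicit false

namespace Pool.Agent.V11329.Penney

open MeasureTheory Pool.Agent.V11329.Avg Pool.Agent.V11329.Haar

lemma coin_singleton (b : Bool) : coin {b} = 2⁻¹ := by
  unfold coin
  rw [PMF.toMeasure_apply_singleton _ _ (measurableSet_singleton b), PMF.uniformOfFintype_apply]
  simp

/-- restriction to the first `m` tosses -/
def rs (m : ℕ) (ω : ℕ → Bool) : Fin m → Bool := fun i => ω i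

lemma unif_rs (m : ℕ) : Unif tosses (rs m) := by
  intro b
  have h1 : rs m ⁻¹' {b} = Set.pi (Finset.range m : Set ℕ)
      (fun i => if h : i < m then {b ⟨i, h⟩} else Set.univ) := by
    ext ω
    simp only [Set.mem_preimage, Set.mem_singleton_iff, Set.mem_pi, Finset.coe_range, Set.mem_Iio]
    constructor
    · intro h i hi
      rw [dif_pos hi, ← h]
      rfl
    · intro h
      funext i
      have := h i i.2
      rw [dif_pos i.2] at this
      exact this
  constructor
  · rw [h1]
    apply MeasurableSet.pi (Set.to_countable _)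
    intro i _
    split_ifs
    · exact measurableSet_singleton _
    · exact MeasurableSet.univ
  · rw [h1]
    unfold tosses
    rw [Measure.infinitePi_pi]
    · rw [Finset.prod_congr rfl (g := fun _ => (2 : ENNReal)⁻¹)]
      · rw [Finset.prod_const, Finset.card_range, Fintype.card_fun, Fintype.card_bool,
          Fintype.card_fin, Nat.cast_pow, ENNReal.inv_pow]
        rfl
      · intro i hi
        rw [dif_pos (Finset.mem_range.1 hi), coin_singleton]
    · intro i _
      split_ifs
      · exact measurableSet_singleton _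
      · exact MeasurableSet.univ

/-- extension of a finite string by `false` -/
def ext (m : ℕ) (z : Fin m → Bool) : ℕ → Bool := fun i => if h : i < m then z ⟨i, h⟩ else false

lemma ext_apply {m : ℕ} (z : Fin m → Bool) {i : ℕ} (h : i < m) : ext m z i = z ⟨i, h⟩ := dif_pos h

/-- the event depends only on the first `m` tosses -/
def Dep (m : ℕ) (P : (ℕ → Bool) → Prop) : Prop := ∀ ω ω', (∀ i < m, ω i = ω' i) → P ω → P ω'

lemma Dep.mono {m m' : ℕ} (h : m ≤ m') {P : (ℕ → Bool) → Prop} (hP : Dep m P) : Dep m' P :=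
  fun ω ω' hω => hP ω ω' fun i hi => hω i (hi.trans_le h)

lemma Dep.and {m : ℕ} {P Q : (ℕ → Bool) → Prop} (hP : Dep m P) (hQ : Dep m Q) :
    Dep m (fun ω => P ω ∧ Q ω) := fun ω ω' hω h => ⟨hP ω ω' hω h.1, hQ ω ω' hω h.2⟩

lemma Dep.iff {m : ℕ} {P : (ℕ → Bool) → Prop} (hP : Dep m P) {ω ω' : ℕ → Bool}
    (h : ∀ i < m, ω i = ω' i) : P ω ↔ P ω' :=
  ⟨hP ω ω' h, hP ω' ω fun i hi => (h i hi).symm⟩

lemma Dep.set_eq {m : ℕ} {P : (ℕ → Bool) → Prop} (hP : Dep m P) :
    {ω | P ω} = rs m ⁻¹' {z | P (ext m z)} := by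
  ext ω
  exact hP.iff fun i hi => by rw [ext_apply _ hi]; rfl

lemma Dep.meas {m : ℕ} {P : (ℕ → Bool) → Prop} (hP : Dep m P) : MeasurableSet {ω | P ω} := by
  rw [hP.set_eq]
  have : Measurable (rs m) := measurable_pi_lambda _ fun i => measurable_pi_apply _
  exact this (Set.toFinite _).measurableSet

/-- probability of an event -/
noncomputable def pr (P : (ℕ → Bool) → Prop) : ℝ := tosses.real {ω | P ω}

lemma pr_nonneg (P : (ℕ → Bool) → Prop) : 0 ≤ pr P := measureReal_nonneg

lemma pr_le_one (P : (ℕ → Bool) → Prop) : pr P ≤ 1 := measureReal_le_one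

lemma Dep.pr_eq {m : ℕ} {P : (ℕ → Bool) → Prop} (hP : Dep m P) :
    pr P = av (fun z : Fin m → Bool => I (P (ext m z))) := by
  unfold pr
  rw [hP.set_eq, (unif_rs m).prob]
  rfl

lemma pr_congr {P Q : (ℕ → Bool) → Prop} (h : ∀ ω, P ω ↔ Q ω) : pr P = pr Q := by
  unfold pr; congr 1; ext ω; exact h ω

/-- additivity over a pointwise decomposition -/
lemma pr_sum {α : Type*} (s : Finset α) {m : ℕ} {P : (ℕ → Bool) → Prop}
    {Q : α → (ℕ → Bool) → Prop} (hP : Dep m P) (hQ : ∀ a, Dep m (Q a))
    (h : ∀ ω, I (P ω) = ∑ a ∈ s, I (Q a ω)) : pr P = ∑ a ∈ s, pr (Q a) := by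
  rw [hP.pr_eq, av_congr (fun z => h (ext m z)), av_sum]
  exact Finset.sum_congr rfl fun a _ => (hQ a).pr_eq.symm

lemma av_append {W : Type*} [Fintype W] {m K : ℕ} (F : (Fin (m + K) → W) → ℝ) :
    av F = av (fun u : Fin m → W => av (fun v : Fin K → W => F (Fin.append u v))) := by
  rw [← av_prod (fun q : (Fin m → W) × (Fin K → W) => F (Fin.append q.1 q.2)),
    ← av_equiv (Fin.appendEquiv m K) F]
  rfl

lemma av_eq_single {l : ℕ} (w : Fin l → Bool) :
    av (fun v : Fin l → Bool => I (∀ i, v i = w i)) = (1 / 2) ^ l := by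
  classical
  unfold av
  rw [Finset.sum_eq_single w]
  · rw [I_true (fun _ => rfl), Fintype.card_fun, Fintype.card_bool, Fintype.card_fin]
    push_cast
    rw [one_div_pow]
  · intro v _ hv
    exact I_false fun h => hv (funext h)
  · intro h; exact absurd (Finset.mem_univ _) h

/-- independence of the next tosses -/
lemma pr_ext {m l : ℕ} {P : (ℕ → Bool) → Prop} (hP : Dep m P) (w : Fin l → Bool) :
    pr (fun ω => P ω ∧ ∀ i : Fin l, ω (m + i) = w i) = pr P * (1 / 2) ^ l := by
  have hQ : Dep (m + l) (fun ω => P ω ∧ ∀ i : Fin l, ω (m + i) = w i) := by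
    refine (hP.mono (by omega)).and ?_
    intro ω ω' hω h i
    rw [← hω (m + i) (by have := i.2; omega)]
    exact h i
  rw [hQ.pr_eq, av_append, hP.pr_eq, ← av_mul_right]
  refine av_congr fun u => ?_
  rw [← av_eq_single w, ← av_mul_left]
  refine av_congr fun v => ?_
  rw [← I_and]
  apply I_congr
  have h1 : P (ext (m + l) (Fin.append u v)) ↔ P (ext m u) := by
    apply hP.iff
    intro i hi
    rw [ext_apply _ (by omega : i < m + l), ext_apply _ hi]
    exact Fin.append_left u v ⟨i, hi⟩
  have h2 : (∀ i : Fin l, ext (m + l) (Fin.append u v) (m + i) = w i) ↔ ∀ i, v i = w i := by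
    apply forall_congr'
    intro i
    rw [ext_apply _ (by have := i.2; omega : m + (i : ℕ) < m + l)]
    have : Fin.append u v ⟨m + i, by have := i.2; omega⟩ = v i := Fin.append_right u v i
    rw [this]
  rw [h1, h2]

end Pool.Agent.V11329.Penney
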