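import Pool.Agent.V11329.Penney.Conway

/-! Conway's formula: summation. -/

set_option autoImplicit false

namespace Pool.Agent.V11329.Penney

open MeasureTheory Filter Topology Pool.Agent.V11329.Avg Pool.Agent.V11329.Haar

variable {n : ℕ}

/-- the probability that the first occurrence is an occurrence of `X` -/
noncomputable def pX (A B X : Fin n → Bool) : ℝ := pr (fun ω => ∃ j, fst A B X j ω)

lemma fst_disjoint {A B X : Fin n → Bool} (hX : X = A ∨ X = B) {i j : ℕ} (hij : i < j)
    {ω : ℕ → Bool} (hi : fst A B X i ω) (hj : fst A B X j ω) : False := by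
  have h := hj.2 i hij
  rcases hX with rfl | rfl
  · exact h.1 hi.1
  · exact h.2 hi.1

lemma hasSum_fst {A B X : Fin n → Bool} (hX : X = A ∨ X = B) :
    HasSum (fun j => pr (fst A B X j)) (pX A B X) := by
  have h1 : {ω | ∃ j, fst A B X j ω} = ⋃ j, {ω | fst A B X j ω} := by
    ext ω; simp
  have h2 : tosses (⋃ j, {ω | fst A B X j ω}) = ∑' j, tosses {ω | fst A B X j ω} := by
    apply measure_iUnion
    · intro i j hij
      rw [Function.onFun, Set.disjoint_left]
      intro ω hi hj
      rcases lt_or_gt_of_ne hij with h | h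
      · exact fst_disjoint hX h hi hj
      · exact fst_disjoint hX h hj hi
    · exact fun j => (fst_dep A B X j).meas
  have h3 : (∑' j, tosses {ω | fst A B X j ω}) ≠ ⊤ := by rw [← h2]; exact measure_ne_top _ _
  have h4 := ENNReal.hasSum_toReal h3
  have h5 : pX A B X = ∑' j, (tosses {ω | fst A B X j ω}).toReal := by
    unfold pX pr Measure.real
    rw [h1, h2, ENNReal.tsum_toReal_eq (fun j => measure_ne_top _ _)]
  rw [h5]
  exact h4

lemma fst_zero {A B X : Fin n → Bool} {j : ℕ} (hj : j < n) : pr (fst A B X j) = 0 := by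
  unfold pr
  have : {ω | fst A B X j ω} = ∅ := by
    ext ω
    constructor
    · intro h; have := h.1.1; omega
    · intro h; exact absurd h (Set.notMem_empty _)
  rw [this, measureReal_empty]

lemma hasSum_shift {A B X : Fin n → Bool} (hX : X = A ∨ X = B) {k : ℕ} (hk : k ≤ n) :
    HasSum (fun m => pr (fst A B X (m + k))) (pX A B X) := by
  rw [hasSum_nat_add_iff (f := fun j => pr (fst A B X j)) k]
  rw [Finset.sum_eq_zero, add_zero]
  · exact hasSum_fst hX
  · intro j hj
    exact fst_zero (by have := Finset.mem_range.1 hj; omega)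

/-- Conway's correlation, scaled: `∑_k 2^k [suf_k X = pre_k Y]` -/
noncomputable def K (X Y : Fin n → Bool) : ℝ := ∑ k ∈ Finset.Icc 1 n, I (ov X Y k) * 2 ^ k

lemma conway_odds {A B : Fin n → Bool} (hAB : A ≠ B) :
    (K A A - K A B) * pX A B A = (K B B - K B A) * pX A B B := by
  have h1 : ∀ Y : Fin n → Bool, HasSum (fun m => ∑ k ∈ Finset.Icc 1 n,
      (I (ov A Y k) * 2 ^ k * pr (fst A B A (m + k)) + I (ov B Y k) * 2 ^ k * pr (fst A B B (m + k)))
      - 0) (K A Y * pX A B A + K B Y * pX A B B) := by
    intro Y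
    unfold K
    rw [Finset.sum_mul, Finset.sum_mul, ← Finset.sum_add_distrib]
    simp only [sub_zero]
    apply hasSum_sum
    intro k hk
    rw [Finset.mem_Icc] at hk
    exact ((hasSum_shift (Or.inl rfl) hk.2).mul_left _).add
      ((hasSum_shift (Or.inr rfl) hk.2).mul_left _)
  have h2 := (h1 A).sub (h1 B)
  have h3 : HasSum (fun _ : ℕ => (0 : ℝ)) (K A A * pX A B A + K B A * pX A B B
      - (K A B * pX A B A + K B B * pX A B B)) := by
    refine h2.congr_fun ?_
    intro m
    simp only [sub_zero]
    rw [← identity hAB (Or.inl rfl) m, ← identity hAB (Or.inr rfl) m, sub_self]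
  have h4 := h3.unique hasSum_zero
  linarith

lemma pr_noocc_tendsto {A B : Fin n → Bool} (hAB : A ≠ B) :
    Tendsto (fun m => pr (noocc A B m)) atTop (𝓝 0) := by
  have h1 : ∀ k ∈ Finset.Icc 1 n, Tendsto (fun m =>
      (I (ov A A k) * 2 ^ k * pr (fst A B A (m + k)) + I (ov B A k) * 2 ^ k * pr (fst A B B (m + k))))
      atTop (𝓝 (I (ov A A k) * 2 ^ k * 0 + I (ov B A k) * 2 ^ k * 0)) := by
    intro k hk
    rw [Finset.mem_Icc] at hk
    exact ((hasSum_shift (Or.inl rfl) hk.2).summable.tendsto_atTop_zero.const_mul _).add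
      ((hasSum_shift (Or.inr rfl) hk.2).summable.tendsto_atTop_zero.const_mul _)
  have h2 := tendsto_finsetSum _ h1
  simp only [mul_zero, add_zero, Finset.sum_const_zero] at h2
  refine h2.congr fun m => ?_
  rw [identity hAB (Or.inl rfl) m]

lemma meas_ex {A B X : Fin n → Bool} : MeasurableSet {ω | ∃ j, fst A B X j ω} := by
  have h1 : {ω | ∃ j, fst A B X j ω} = ⋃ j, {ω | fst A B X j ω} := by
    ext ω; simp
  rw [h1]
  exact MeasurableSet.iUnion fun j => (fst_dep A B X j).meas

lemma total {A B : Fin n → Bool} (hAB : A ≠ B) : pX A B A + pX A B B = 1 := by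
  classical
  have hdisj : Disjoint {ω | ∃ j, fst A B A j ω} {ω | ∃ j, fst A B B j ω} := by
    rw [Set.disjoint_left]
    rintro ω ⟨i, hi⟩ ⟨j, hj⟩
    rcases lt_trichotomy i j with h | h | h
    · exact (hj.2 i h).1 hi.1
    · subst h; exact hAB (occ_unique hi.1 hj.1)
    · exact (hi.2 j h).2 hj.1
  have h1 : pX A B A + pX A B B = tosses.real ({ω | ∃ j, fst A B A j ω} ∪ {ω | ∃ j, fst A B B j ω}) := by
    unfold pX pr
    rw [measureReal_union hdisj meas_ex]
  apply le_antisymm
  · rw [h1]; exact measureReal_le_one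
  · have h2 : ∀ m, 1 - pr (noocc A B m) ≤ pX A B A + pX A B B := by
      intro m
      have h3 : 1 - pr (noocc A B m) = tosses.real {ω | noocc A B m ω}ᶜ := by
        unfold pr
        rw [probReal_compl_eq_one_sub (noocc_dep A B m).meas]
      rw [h3, h1]
      apply measureReal_mono _ (measure_ne_top _ _)
      intro ω hω
      have hex : ∃ j, occ A j ω ∨ occ B j ω := by
        by_contra hcon
        push Not at hcon
        exact hω fun j _ => hcon j
      have hspec := Nat.find_spec hex
      have hmin : ∀ j < Nat.find hex, ¬ occ A j ω ∧ ¬ occ B j ω := fun j hj =>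
        not_or.1 (Nat.find_min hex hj)
      rcases hspec with h | h
      · exact Or.inl ⟨_, h, hmin⟩
      · exact Or.inr ⟨_, h, hmin⟩
    have h4 := (pr_noocc_tendsto hAB).const_sub 1
    rw [sub_zero] at h4
    exact le_of_tendsto' h4 h2

lemma winP_eq {A B : Fin n → Bool} (hAB : A ≠ B) : winP B A = pX A B B := by
  classical
  unfold winP pX pr
  congr 1
  ext ω
  constructor
  · rintro ⟨t, ht, hA⟩
    have hex : ∃ t, (∀ i : Fin n, ω (t + i) = B i) := ⟨t, ht⟩
    have hspec := Nat.find_spec hex
    have hle : Nat.find hex ≤ t := Nat.find_min' hex ht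
    refine ⟨Nat.find hex + n, ⟨by omega, ?_⟩, ?_⟩
    · intro i
      rw [Nat.add_sub_cancel]
      exact hspec i
    · intro j hj
      constructor
      · intro h
        exact hA (j - n) (by have := h.1; omega) h.2
      · intro h
        exact Nat.find_min hex (m := j - n) (by have := h.1; omega) h.2
  · rintro ⟨j, hj, hmin⟩
    refine ⟨j - n, hj.2, ?_⟩
    intro s hs h
    rcases lt_or_eq_of_le hs with h1 | h1
    · apply (hmin (s + n) (by omega)).1
      refine ⟨by omega, ?_⟩
      rw [Nat.add_sub_cancel]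
      exact h
    · subst h1
      apply hAB
      funext i
      rw [← h i, ← hj.2 i]

/-- the odds formula -/
lemma winP_formula {A B : Fin n → Bool} (hAB : A ≠ B) :
    (K A A - K A B) * (1 - winP B A) = (K B B - K B A) * winP B A := by
  rw [winP_eq hAB, ← total hAB, add_sub_cancel_right]
  exact conway_odds hAB

end Pool.Agent.V11329.Penney
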